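import Mathlib
import Pool.Agent.H39.Res1

set_option autoImplicit false

namespace Pool.Agent.Results.MP_bab9cd_gt.Counter

open TopologicalSpace

/-- A paracompact Hausdorff space without isolated points with an irresolvable base. -/
theorem result : ∃ (X : Type) (_ : TopologicalSpace X), T2Space X ∧ ParacompactSpace X ∧
    Nonempty X ∧ (∀ x : X, ¬ IsOpen ({x} : Set X)) ∧
    ∃ B : Set (Set X), IsTopologicalBasis B ∧
      ∀ B0 B1 : Set (Set X), B0 ∪ B1 = B → Disjoint B0 B1 →
        ¬ (IsTopologicalBasis B0 ∧ IsTopologicalBasis B1) :=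
  ⟨H39.Res.XP, inferInstance, inferInstance, inferInstance, inferInstance, H39.Res.no_isol_XP,
    H39.Res.BP, H39.Res.basis_BP, fun B0 B1 hu hd h => H39.Res.irres_BP B0 B1 hu hd h.1 h.2⟩

end Pool.Agent.Results.MP_bab9cd_gt.Counter
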